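import Pool.Agent.H92.SF.LUT
import Pool.Agent.H62.HIL.Eig

/-!
# MP_70ba79_ag, THEOREM S: row KER of the board `sfu_modules`
-/

set_option autoImplicit false

namespace Pool.Agent.H75.SFU

open MvPolynomial
open Pool.Agent.H84.SM (dp cr dt)
open Pool.Agent.H3.SF Pool.Agent.H92.SF

section HC

variable {k F : Type} [Field k] [Field F] [Algebra k F]

/-- forms of degree `i` with coefficients in `W` -/
noncomputable def HC (i : ℕ) (W : Submodule k F) : Submodule k (MvPolynomial (Fin 3) F) where
  carrier := {b | b.IsHomogeneous i ∧ ∀ a, b.coeff a ∈ W}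
  add_mem' := fun ha hb => ⟨ha.1.add hb.1, fun a => by
    rw [coeff_add]
    exact W.add_mem (ha.2 a) (hb.2 a)⟩
  zero_mem' := ⟨isHomogeneous_zero _ _ _, fun a => by
    rw [coeff_zero]
    exact W.zero_mem⟩
  smul_mem' := fun c b hb => ⟨by
    intro a ha
    refine hb.1 fun h => ha ?_
    rw [coeff_smul, h, smul_zero], fun a => by
    rw [coeff_smul]
    exact W.smul_mem c (hb.2 a)⟩

theorem mem_HC {i : ℕ} {W : Submodule k F} {b : MvPolynomial (Fin 3) F} :
    b ∈ HC i W ↔ b.IsHomogeneous i ∧ ∀ a, b.coeff a ∈ W := Iff.rfl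

/-- the exponents of degree `i` -/
noncomputable def Ex (i : ℕ) : Finset (Fin 3 →₀ ℕ) :=
  (Finset.univ : Finset (Fin 3)).finsuppAntidiag i

theorem mem_Ex {i : ℕ} {a : Fin 3 →₀ ℕ} : a ∈ Ex i ↔ a.degree = i := by
  unfold Ex
  rw [Finset.mem_finsuppAntidiag, Finsupp.degree_eq_sum]
  simp

theorem card_Ex (i : ℕ) : (Ex i).card = (i + 2).choose 2 := by
  unfold Ex
  rw [Finset.card_finsuppAntidiag_nat_eq_choose, Finset.card_univ, Fintype.card_fin]
  have h : 3 + i - 1 = i + 2 := by omega
  rw [h]
  exact Nat.choose_symm_of_eq_add (by omega)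

/-- the coefficients -/
noncomputable def cmap (i : ℕ) (W : Submodule k F) :
    HC i W →ₗ[k] ({a : Fin 3 →₀ ℕ // a ∈ Ex i} → W) where
  toFun b a := ⟨b.1.coeff a.1, b.2.2 a.1⟩
  map_add' b c := by
    funext a
    apply Subtype.ext
    simp
  map_smul' r b := by
    funext a
    apply Subtype.ext
    simp

theorem cmap_bij (i : ℕ) (W : Submodule k F) : Function.Bijective (cmap i W) := by
  constructor
  · intro b c h
    apply Subtype.ext
    apply MvPolynomial.ext
    intro a
    by_cases ha : a.degree = i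
    · have h1 := congrArg Subtype.val (congrFun h ⟨a, mem_Ex.mpr ha⟩)
      exact h1
    · rw [b.2.1.coeff_eq_zero ha, c.2.1.coeff_eq_zero ha]
  · intro f
    have hc : ∀ a : Fin 3 →₀ ℕ,
        (∑ a' : {a : Fin 3 →₀ ℕ // a ∈ Ex i}, monomial a'.1 ((f a' : W) : F)).coeff a =
        if h : a ∈ Ex i then (f ⟨a, h⟩ : F) else 0 := by
      intro a
      rw [coeff_sum]
      split_ifs with h
      · rw [Finset.sum_eq_single ⟨a, h⟩]
        · rw [coeff_monomial, if_pos rfl]
        · intro b _ hb
          rw [coeff_monomial, if_neg]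
          intro h1
          exact hb (Subtype.ext h1)
        · intro h1
          exact absurd (Finset.mem_univ _) h1
      · apply Finset.sum_eq_zero
        intro b _
        rw [coeff_monomial, if_neg]
        intro h1
        exact h (h1 ▸ b.2)
    refine ⟨⟨∑ a' : {a : Fin 3 →₀ ℕ // a ∈ Ex i}, monomial a'.1 ((f a' : W) : F), ?_, ?_⟩, ?_⟩
    · apply MvPolynomial.IsHomogeneous.sum
      intro a _
      exact isHomogeneous_monomial _ (mem_Ex.mp a.2)
    · intro a
      rw [hc]
      split_ifs with h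
      · exact (f ⟨a, h⟩).2
      · exact W.zero_mem
    · funext a
      apply Subtype.ext
      have h1 := hc a.1
      rw [dif_pos a.2] at h1
      exact h1

theorem HC_fin (i : ℕ) (W : Submodule k F) [Module.Finite k W] : Module.Finite k (HC i W) :=
  Module.Finite.equiv (LinearEquiv.ofBijective (cmap i W) (cmap_bij i W)).symm

theorem HC_rank (i : ℕ) (W : Submodule k F) [Module.Finite k W] :
    Module.finrank k (HC i W) = Module.finrank k W * (i + 2).choose 2 := by
  rw [(LinearEquiv.ofBijective (cmap i W) (cmap_bij i W)).finrank_eq, Module.finrank_pi_fintype,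
    Finset.sum_const, Finset.card_univ, Fintype.card_coe, card_Ex, smul_eq_mul, mul_comm]

end HC

section Main

variable {k F : Type} [Field k] [Field F] [Algebra k F]

/-- coefficients of the product with a linear form -/
theorem coeff_lin_mul (g : Fin 3 → F) (c : MvPolynomial (Fin 3) F) (a : Fin 3 →₀ ℕ) :
    ((∑ l, C (g l) * X l) * c).coeff a =
      ∑ l, g l * (if l ∈ a.support then c.coeff (a - Finsupp.single l 1) else 0) := by
  rw [Finset.sum_mul, coeff_sum]
  refine Finset.sum_congr rfl fun l _ => ?_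
  rw [mul_assoc, coeff_C_mul, coeff_X_mul']

theorem coeff_lin_single (g : Fin 3 → F) (l : Fin 3) :
    (∑ j, C (g j) * X j : MvPolynomial (Fin 3) F).coeff (Finsupp.single l 1) = g l := by
  rw [coeff_sum, Finset.sum_eq_single l]
  · rw [coeff_C_mul, coeff_X, if_pos rfl, mul_one]
  · intro b _ hb
    rw [coeff_C_mul, coeff_X, if_neg, mul_zero]
    intro h
    exact hb (Finsupp.single_left_injective one_ne_zero h)
  · intro h
    exact absurd (Finset.mem_univ _) h

/-- the degree of the quotient by a linear form -/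
theorem hm_of_lin_mul (E : Derivation k F F) (g : Fin 3 → F) (s e : ℤ) (hg : ∀ l, Hm k E s (g l))
    (hp : (∑ l, C (g l) * X l : MvPolynomial (Fin 3) F) ≠ 0) (c : MvPolynomial (Fin 3) F)
    (hb : ∀ a, Hm k E e (((∑ l, C (g l) * X l) * c).coeff a)) (a : Fin 3 →₀ ℕ) :
    Hm k E (e - s) (c.coeff a) := by
  set c' : MvPolynomial (Fin 3) F :=
    ∑ a ∈ c.support, monomial a (E (c.coeff a) - ((e - s : ℤ) : F) * c.coeff a) with hc'
  have hco : ∀ a, c'.coeff a = E (c.coeff a) - ((e - s : ℤ) : F) * c.coeff a := by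
    intro a
    rw [hc', coeff_sum]
    by_cases ha : a ∈ c.support
    · rw [Finset.sum_eq_single a]
      · rw [coeff_monomial, if_pos rfl]
      · intro b _ hb
        rw [coeff_monomial, if_neg hb]
      · intro h
        exact absurd ha h
    · rw [Finset.sum_eq_zero]
      · rw [notMem_support_iff.mp ha, map_zero, mul_zero, sub_zero]
      · intro b hb
        rw [coeff_monomial, if_neg]
        intro h
        exact ha (h ▸ hb)
  have h0 : (∑ l, C (g l) * X l) * c' = 0 := by
    apply MvPolynomial.ext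
    intro a
    rw [coeff_lin_mul, coeff_zero]
    have h1 := hb a
    rw [coeff_lin_mul] at h1
    unfold Hm at h1
    rw [map_sum, Finset.mul_sum, ← sub_eq_zero, ← Finset.sum_sub_distrib] at h1
    refine Eq.trans (Finset.sum_congr rfl fun l _ => ?_) h1
    have h2 : E (g l) = (s : F) * g l := hg l
    split_ifs with h
    · rw [hco, Derivation.leibniz, h2, smul_eq_mul, smul_eq_mul]
      push_cast
      ring
    · rw [mul_zero, map_zero, mul_zero, sub_zero]
  have h3 : c' = 0 := (mul_eq_zero.mp h0).resolve_left hp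
  have h4 := hco a
  rw [h3, coeff_zero] at h4
  exact (sub_eq_zero.mp h4.symm)

end Main

/-- the kernel -/
theorem ker_mem (hDAT : T_DAT) (hKQA : T_KQA) (k F : Type) [Field k] [IsAlgClosed k] [CharZero k]
    [Field F] [Algebra k F] (u : Fin 3 → F) (dd : Fin 3 → Derivation k F F) (δ j0 c0 : ℕ)
    (J : MvPolynomial (Fin 3) k) (m : ℕ) (G : F) (hB : Bs u dd δ j0 c0 J m G) (i : ℕ) (e : ℤ)
    (b : MvPolynomial (Fin 3) F) (hb : b ∈ HC i (BB k u (eu u dd) e))
    (h0 : aeval (qf u dd m G) b = 0) : ∃ c : MvPolynomial (Fin 3) F, (i = 0 → c = 0) ∧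
      (1 ≤ i → c ∈ HC (i - 1) (BB k u (eu u dd) (e - m + 1))) ∧
      b = (∑ l, C (dd l G) * X l) * c := by
  obtain ⟨-, hu, -, hmG, -, -, hgd, -, -, -⟩ := hDAT k F u dd δ j0 c0 J m G hB
  obtain ⟨c, hc1, hc2, hc3⟩ := hKQA k F u dd δ j0 c0 J m G hB i b hb.1 h0
  refine ⟨c, hc1, fun hi => ⟨hc2 hi, fun a => ⟨?_, ?_⟩⟩, hc3⟩
  · -- integrality
    have h1 : ∀ l, Itg k u (dd l G * c.coeff a) := by
      intro l
      have h2 := Pool.Agent.H62.HIL.pf_KRO
        ((aeval u : MvPolynomial (Fin 3) k →ₐ[k] F) : MvPolynomial (Fin 3) k →+* F)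
        (Polynomial.C (∑ l, C (dd l G) * X l)) (Polynomial.C c) (by
          intro j a'
          rw [← Polynomial.C_mul, ← hc3, Polynomial.coeff_C]
          split_ifs
          · exact (hb.2 a').1
          · rw [coeff_zero]
            exact (Bb k u).zero_mem) 0 (Finsupp.single l 1) 0 a
      rw [Polynomial.coeff_C_zero, Polynomial.coeff_C_zero, coeff_lin_single] at h2
      exact h2
    obtain ⟨c', hc'⟩ := hB.cert
    have h2 : ∀ x, Itg k u (u x ^ c' * c.coeff a) := by
      intro x
      obtain ⟨e', he1, he2⟩ := hc' x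
      rw [he2, Finset.sum_mul]
      have h3 : ∀ l, Itg k u (e' l * dd l G * c.coeff a) := by
        intro l
        rw [mul_assoc]
        exact (Bb k u).mul_mem (he1 l).1 (h1 l)
      exact (Bb k u).sum_mem fun l _ => h3 l
    refine Pool.Agent.H62.HIL.pf_SAT
      ((aeval u : MvPolynomial (Fin 3) k →ₐ[k] F) : MvPolynomial (Fin 3) k →+* F) hB.ind
      (Pool.Agent.H62.HIL.isRelPrime_X (κ := k) (i := (0 : Fin 3)) (j := 1) (by decide) c' c')
      (pow_ne_zero _ (X_ne_zero _)) (pow_ne_zero _ (X_ne_zero _)) ?_ ?_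
    · have h3 := h2 0
      unfold Itg at h3
      rw [show ((aeval u : MvPolynomial (Fin 3) k →ₐ[k] F) : MvPolynomial (Fin 3) k →+* F)
        (X 0 ^ c') = u 0 ^ c' by simp]
      exact h3
    · have h3 := h2 1
      unfold Itg at h3
      rw [show ((aeval u : MvPolynomial (Fin 3) k →ₐ[k] F) : MvPolynomial (Fin 3) k →+* F)
        (X 1 ^ c') = u 1 ^ c' by simp]
      exact h3
  · -- the degree
    have hp : (∑ l, C (dd l G) * X l : MvPolynomial (Fin 3) F) ≠ 0 := by
      intro h
      apply hmG
      have h1 : eu u dd G = ((m : ℤ) : F) * G := hB.hom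
      have h2 : eu u dd G = ∑ l, u l * dd l G := by
        unfold eu
        simp [Fin.sum_univ_three]
      have h3 : ∀ l, dd l G = 0 := by
        intro l
        have h4 := coeff_lin_single (fun l => dd l G) l
        rw [h, coeff_zero] at h4
        exact h4.symm
      rw [h2, Finset.sum_eq_zero (fun l _ => by rw [h3 l, mul_zero])] at h1
      rw [Int.cast_natCast] at h1
      exact h1.symm
    have h1 := hm_of_lin_mul (eu u dd) (fun l => dd l G) ((m : ℤ) - 1) e hgd hp c
      (by rw [← hc3]; exact fun a => (hb.2 a).2) a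
    have h2 : e - ((m : ℤ) - 1) = e - m + 1 := by ring
    rw [h2] at h1
    exact h1

/-- KER -/
theorem pf_KER (hDAT : T_DAT) (hKQA : T_KQA) : T_KER := by
  intro k F _ _ _ _ _ u dd δ j0 c0 J m G hB i e
  have := hB.fin e
  have := hB.fin (e - m + 1)
  have := HC_fin i (BB k u (eu u dd) e)
  set Φ : MvPolynomial (Fin 3) F →ₗ[k] MvPolynomial (Fin 2) F :=
    ((aeval (qf u dd m G) : MvPolynomial (Fin 3) F →ₐ[F]
      MvPolynomial (Fin 2) F).toLinearMap).restrictScalars k
    with hΦ
  have hΦa : ∀ b, Φ b = aeval (qf u dd m G) b := fun b => rfl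
  set Ψ := Φ.domRestrict (HC i (BB k u (eu u dd) e)) with hΨ
  refine ⟨LinearMap.range Ψ, inferInstance, ?_, ?_⟩
  · rintro f ⟨b, rfl⟩
    exact ⟨b.1, b.2.1, b.2.2, rfl⟩
  · have h1 := LinearMap.finrank_range_add_finrank_ker Ψ
    rw [HC_rank] at h1
    have hker : ∀ x ∈ LinearMap.ker Ψ, aeval (qf u dd m G) x.1 = 0 := fun x hx => hx
    have h2 : Module.finrank k (LinearMap.ker Ψ) ≤
        Module.finrank k (BB k u (eu u dd) (e - m + 1)) * (i + 1).choose 2 := by
      rcases Nat.eq_zero_or_pos i with hi | hi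
      · have h3 : LinearMap.ker Ψ = ⊥ := by
          rw [eq_bot_iff]
          intro x hx
          obtain ⟨c, hc1, -, hc3⟩ := ker_mem hDAT hKQA k F u dd δ j0 c0 J m G hB i e x.1 x.2
            (hker x hx)
          rw [hc1 hi, mul_zero] at hc3
          exact (Submodule.mem_bot k).mpr (Subtype.ext hc3)
        rw [h3, finrank_bot]
        exact Nat.zero_le _
      · have := HC_fin (i - 1) (BB k u (eu u dd) (e - m + 1))
        set Mt : MvPolynomial (Fin 3) F →ₗ[k] MvPolynomial (Fin 3) F :=
          (LinearMap.mulLeft F (∑ l, C (dd l G) * X l)).restrictScalars k with hMt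
        have h3 : (LinearMap.ker Ψ).map (HC i (BB k u (eu u dd) e)).subtype ≤
            (HC (i - 1) (BB k u (eu u dd) (e - m + 1))).map Mt := by
          rintro _ ⟨x, hx, rfl⟩
          obtain ⟨c, -, hc2, hc3⟩ := ker_mem hDAT hKQA k F u dd δ j0 c0 J m G hB i e x.1 x.2
            (hker x hx)
          exact ⟨c, hc2 hi, hc3.symm⟩
        have h4 := Submodule.finrank_mono h3
        have h5 := Submodule.finrank_map_le Mt (HC (i - 1) (BB k u (eu u dd) (e - m + 1)))
        have h6 : Module.finrank k ((LinearMap.ker Ψ).map (HC i (BB k u (eu u dd) e)).subtype) =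
            Module.finrank k (LinearMap.ker Ψ) := by
          apply LinearEquiv.finrank_eq
          exact (Submodule.equivMapOfInjective _ (Submodule.injective_subtype _) _).symm
        rw [HC_rank] at h5
        have h7 : i - 1 + 2 = i + 1 := by omega
        rw [h7] at h5
        omega
    omega

end Pool.Agent.H75.SFU
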