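import Pool.Agent.H92.SF.LUT

/-!
# MP_70ba79_ag, THEOREM S: row NSA of the board `sfu_modules`
-/

set_option autoImplicit false

namespace Pool.Agent.H75.SFU

open MvPolynomial
open Pool.Agent.H84.SM (dp cr dt)
open Pool.Agent.H3.SF Pool.Agent.H92.SF

theorem nC_add (N : ℕ) : nC (N + 3) = nC N + (N + 4) := by
  unfold nC
  have h : (N + 3) / 3 + 1 = (N / 3 + 1) + 1 := by omega
  rw [h, Finset.sum_range_succ']
  have h1 : ∀ s ∈ Finset.range (N / 3 + 1), N + 3 - 3 * (s + 1) + 1 = N - 3 * s + 1 := by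
    intro s _
    omega
  rw [Finset.sum_congr rfl h1, mul_zero, Nat.sub_zero]

theorem nA_add (N : ℕ) : 2 * nA (N + 3) = 2 * nA N + 2 * nC N + (N + 4) * (N + 3) := by
  unfold nA nC
  have h : (N + 3) / 3 + 1 = (N / 3 + 1) + 1 := by omega
  rw [h, Finset.sum_range_succ']
  have h1 : ∀ s ∈ Finset.range (N / 3 + 1),
      ∑ b ∈ Finset.range (N + 3 - 3 * (s + 1) + 1), (s + 1 + b) =
        ∑ b ∈ Finset.range (N - 3 * s + 1), (s + b) + (N - 3 * s + 1) := by
    intro s _
    have h2 : N + 3 - 3 * (s + 1) + 1 = N - 3 * s + 1 := by omega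
    rw [h2]
    have h3 : ∀ b ∈ Finset.range (N - 3 * s + 1), s + 1 + b = (s + b) + 1 := by
      intro b _
      omega
    rw [Finset.sum_congr rfl h3, Finset.sum_add_distrib, Finset.sum_const, Finset.card_range,
      smul_eq_mul, mul_one]
  rw [Finset.sum_congr rfl h1, Finset.sum_add_distrib]
  have h4 : (∑ b ∈ Finset.range (N + 3 - 3 * 0 + 1), (0 + b)) * 2 = (N + 4) * (N + 3) := by
    have h5 : N + 3 - 3 * 0 + 1 = N + 4 := by omega
    rw [h5]
    simp only [zero_add]
    rw [Finset.sum_range_id_mul_two]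
    rfl
  linarith

theorem pf_NSA : T_NSA := by
  intro N
  induction N using Nat.strong_induction_on with
  | _ N ih =>
    rcases Nat.lt_or_ge N 3 with h | h
    · interval_cases N <;> decide
    · obtain ⟨n, rfl⟩ : ∃ n, N = n + 3 := ⟨N - 3, by omega⟩
      obtain ⟨h1, h2, h3⟩ := ih n (by omega)
      have h4 := nA_add n
      rw [nC_add]
      refine ⟨?_, ?_, ?_⟩
      · nlinarith
      · nlinarith
      · nlinarith

end Pool.Agent.H75.SFU
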